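import Pool.Agent.TH485.Tur.Plain

/-!
Two-sided Turán systems: families of pairs `(X, Y)`, `X ⊆ A`, `Y ⊆ B`, which are covering in both
coordinates, and the systems on `A ∪ B` they give.
-/

set_option autoImplicit false

namespace Pool.Agent.TH485.Tur

open Finset Pool.Agent.H123R2

/-- two-sided covering families of density `d` -/
def BiGood (r c : ℕ) (d : ℝ) : Prop :=
  ∀ n : ℕ, ∀ A B : Finset (Fin n), ∃ G : Finset (Finset (Fin n) × Finset (Fin n)),
    (∀ p ∈ G, (p.1 ⊆ A ∧ p.1.card = r) ∧ p.2 ⊆ B ∧ p.2.card = c) ∧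
    (∀ X Y : Finset (Fin n), X ⊆ A → X.card = r + 1 → Y ⊆ B → Y.card = c →
      ∃ x ∈ X, (X.erase x, Y) ∈ G) ∧
    (∀ X Y : Finset (Fin n), X ⊆ A → X.card = r → Y ⊆ B → Y.card = c + 1 →
      ∃ y ∈ Y, (X, Y.erase y) ∈ G) ∧
    (G.card : ℝ) ≤ d * ((A.card.choose r : ℝ) * (B.card.choose c : ℝ))

theorem BiGood.symm {r c : ℕ} {d : ℝ} (h : BiGood r c d) : BiGood c r d := by
  intro n A B
  obtain ⟨G, h1, h2, h3, h4⟩ := h n B A
  refine ⟨G.map (Equiv.prodComm _ _).toEmbedding, ?_, ?_, ?_, ?_⟩
  · intro p hp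
    obtain ⟨q, hq, rfl⟩ := Finset.mem_map.1 hp
    exact ⟨(h1 q hq).2, (h1 q hq).1⟩
  · intro X Y hX hXc hY hYc
    obtain ⟨x, hx, hG⟩ := h3 Y X hY hYc hX hXc
    exact ⟨x, hx, Finset.mem_map.2 ⟨_, hG, rfl⟩⟩
  · intro X Y hX hXc hY hYc
    obtain ⟨x, hx, hG⟩ := h2 Y X hY hYc hX hXc
    exact ⟨x, hx, Finset.mem_map.2 ⟨_, hG, rfl⟩⟩
  · rw [Finset.card_map]
    rw [mul_comm (A.card.choose c : ℝ)]
    exact h4

theorem biGood_one (r c : ℕ) : BiGood r c 1 := by
  intro n A B
  refine ⟨powersetCard r A ×ˢ powersetCard c B, ?_, ?_, ?_, ?_⟩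
  · intro p hp
    rw [mem_product, mem_powersetCard, mem_powersetCard] at hp
    exact hp
  · intro X Y hX hXc hY hYc
    obtain ⟨x, hx⟩ : X.Nonempty := by
      rw [← card_pos]
      omega
    refine ⟨x, hx, ?_⟩
    rw [mem_product, mem_powersetCard, mem_powersetCard]
    exact ⟨⟨(erase_subset _ _).trans hX, by rw [card_erase_of_mem hx, hXc]; rfl⟩, hY, hYc⟩
  · intro X Y hX hXc hY hYc
    obtain ⟨x, hx⟩ : Y.Nonempty := by
      rw [← card_pos]
      omega
    refine ⟨x, hx, ?_⟩
    rw [mem_product, mem_powersetCard, mem_powersetCard]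
    exact ⟨⟨hX, hXc⟩, (erase_subset _ _).trans hY, by rw [card_erase_of_mem hx, hYc]; rfl⟩
  · rw [card_product, card_powersetCard, card_powersetCard]
    push_cast
    linarith

theorem sum_choose_lt {n : ℕ} (r : ℕ) (A : Finset (Fin n)) :
    ∑ m ∈ A, ((A.filter (· < m)).card).choose r = A.card.choose (r + 1) := by
  induction A using Finset.induction_on_max with
  | empty => simp
  | insert m A hm ih =>
    have hmA : m ∉ A := fun h => lt_irrefl _ (hm m h)
    rw [sum_insert hmA, card_insert_of_notMem hmA, Nat.choose_succ_succ, ← ih]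
    congr 1
    · congr 1
      have : (insert m A).filter (· < m) = A := by
        ext x
        rw [mem_filter, mem_insert]
        constructor
        · rintro ⟨rfl | h, h2⟩
          · exact absurd h2 (lt_irrefl _)
          · exact h
        · intro h
          exact ⟨Or.inr h, hm x h⟩
      rw [this]
    · apply sum_congr rfl
      intro x hx
      congr 1
      have : (insert m A).filter (· < x) = A.filter (· < x) := by
        rw [filter_insert, if_neg]
        exact fun h => lt_irrefl _ (h.trans (hm x hx))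
      rw [this]

/-- monotonicity -/
theorem BiGood.succ {r c : ℕ} {d : ℝ} (h : BiGood r c d) : BiGood (r + 1) c d := by
  intro n A B
  choose G h1 h2 h3 h4 using h n
  set G' : Finset (Finset (Fin n) × Finset (Fin n)) :=
    A.biUnion fun m => (G (A.filter (· < m)) B).image fun p => (insert m p.1, p.2) with hG'
  have hmem : ∀ X Y : Finset (Fin n), (X, Y) ∈ G' ↔ ∃ m ∈ A, ∃ p ∈ G (A.filter (· < m)) B,
      insert m p.1 = X ∧ p.2 = Y := by
    intro X Y
    simp only [hG', mem_biUnion, mem_image, Prod.mk.injEq]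
  have herase : ∀ X : Finset (Fin n), ∀ hX : X.Nonempty, X ⊆ A →
      X.erase (X.max' hX) ⊆ A.filter (· < X.max' hX) := by
    intro X hX hXA x hx
    rw [mem_erase] at hx
    rw [mem_filter]
    exact ⟨hXA hx.2, lt_of_le_of_ne (X.le_max' x hx.2) hx.1⟩
  refine ⟨G', ?_, ?_, ?_, ?_⟩
  · rintro ⟨X, Y⟩ hp
    rw [hmem] at hp
    obtain ⟨m, hm, p, hp, rfl, rfl⟩ := hp
    obtain ⟨⟨h5, h6⟩, h7⟩ := h1 _ _ p hp
    refine ⟨⟨?_, ?_⟩, h7⟩
    · intro x hx
      rcases mem_insert.1 hx with rfl | hx
      · exact hm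
      · exact (mem_filter.1 (h5 hx)).1
    · simp only
      rw [card_insert_of_notMem, h6]
      intro hx
      exact lt_irrefl _ (mem_filter.1 (h5 hx)).2
  · intro X Y hX hXc hY hYc
    have hne : X.Nonempty := by
      rw [← card_pos]
      omega
    obtain ⟨x, hx, hG⟩ := h2 (A.filter (· < X.max' hne)) B (X.erase (X.max' hne)) Y
      (herase X hne hX) (by rw [card_erase_of_mem (X.max'_mem hne), hXc]; rfl) hY hYc
    rw [mem_erase] at hx
    refine ⟨x, hx.2, ?_⟩
    rw [hmem]
    refine ⟨X.max' hne, hX (X.max'_mem hne), _, hG, ?_, rfl⟩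
    simp only
    ext y
    simp only [mem_insert, mem_erase]
    constructor
    · rintro (rfl | ⟨h5, h6, h7⟩)
      · exact ⟨fun h => hx.1 h.symm, X.max'_mem hne⟩
      · exact ⟨h5, h7⟩
    · rintro ⟨h5, h6⟩
      by_cases h7 : y = X.max' hne
      · exact Or.inl h7
      · exact Or.inr ⟨h5, h7, h6⟩
  · intro X Y hX hXc hY hYc
    have hne : X.Nonempty := by
      rw [← card_pos]
      omega
    obtain ⟨y, hy, hG⟩ := h3 (A.filter (· < X.max' hne)) B (X.erase (X.max' hne)) Y
      (herase X hne hX) (by rw [card_erase_of_mem (X.max'_mem hne), hXc]; rfl) hY hYc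
    refine ⟨y, hy, ?_⟩
    rw [hmem]
    exact ⟨X.max' hne, hX (X.max'_mem hne), _, hG, insert_erase (X.max'_mem hne), rfl⟩
  · have h5 : (G'.card : ℝ) ≤ ∑ m ∈ A, ((G (A.filter (· < m)) B).card : ℝ) := by
      have : G'.card ≤ ∑ m ∈ A, (G (A.filter (· < m)) B).card :=
        card_biUnion_le.trans (sum_le_sum fun m _ => card_image_le)
      exact_mod_cast this
    calc (G'.card : ℝ) ≤ ∑ m ∈ A, ((G (A.filter (· < m)) B).card : ℝ) := h5
      _ ≤ ∑ m ∈ A, d * ((((A.filter (· < m)).card).choose r : ℝ) * (B.card.choose c : ℝ)) :=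
        sum_le_sum fun m _ => h4 _ _
      _ = d * (((∑ m ∈ A, ((A.filter (· < m)).card).choose r : ℕ) : ℝ) *
          (B.card.choose c : ℝ)) := by
        push_cast
        rw [sum_mul, mul_sum]
      _ = _ := by rw [sum_choose_lt]

theorem BiGood.add {r c : ℕ} {d : ℝ} (h : BiGood r c d) : ∀ i : ℕ, BiGood (r + i) c d
  | 0 => h
  | i + 1 => (h.add i).succ

/-- monotonicity in both coordinates -/
theorem BiGood.of_le {r c r' c' : ℕ} {d : ℝ} (h : BiGood r c d) (hr : r ≤ r') (hc : c ≤ c') :
    BiGood r' c' d := by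
  obtain ⟨i, rfl⟩ := Nat.exists_eq_add_of_le hr
  obtain ⟨j, rfl⟩ := Nat.exists_eq_add_of_le hc
  exact (((h.add i).symm).add j).symm

theorem choose_swap (N a b : ℕ) (h : a + b ≤ N) :
    N.choose a * (N - a).choose b = N.choose b * (N - b).choose a := by
  have h1 := Nat.choose_mul (n := N) (k := a + b) (s := a) (Nat.le_add_right a b)
  have h2 := Nat.choose_mul (n := N) (k := a + b) (s := b) (Nat.le_add_left b a)
  rw [Nat.add_sub_cancel_left] at h1
  rw [Nat.add_sub_cancel] at h2
  rw [← h1, ← h2, Nat.choose_symm_add]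

theorem sum_powerset_pairs (n k z : ℕ) (hz : z ≤ k) (hk : k ≤ n) :
    ∑ A : Finset (Fin n), (A.card.choose z) * ((Aᶜ).card.choose (k - z)) * 2 ^ k =
      n.choose k * k.choose z * 2 ^ n := by
  have h1 : ∑ A : Finset (Fin n), (A.card.choose z) * ((Aᶜ).card.choose (k - z)) * 2 ^ k =
      ∑ m ∈ range (n + 1), n.choose m * (m.choose z * (n - m).choose (k - z) * 2 ^ k) := by
    have h2 := Finset.sum_powerset_apply_card (x := (univ : Finset (Fin n)))
      (fun m => m.choose z * (n - m).choose (k - z) * 2 ^ k)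
    rw [Finset.powerset_univ, Finset.card_univ, Fintype.card_fin] at h2
    simp only [smul_eq_mul] at h2
    rw [← h2]
    apply sum_congr rfl
    intro A _
    rw [card_compl, Fintype.card_fin]
  rw [h1]
  have h3 : ∀ m ∈ range (n + 1), n.choose m * (m.choose z * (n - m).choose (k - z) * 2 ^ k) =
      if z ≤ m ∧ m - z ≤ n - k then n.choose k * k.choose z * 2 ^ k * (n - k).choose (m - z) else 0 := by
    intro m hm
    rw [mem_range] at hm
    split_ifs with h
    · obtain ⟨h4, h5⟩ := h
      have e1 := Nat.choose_mul (n := n) (k := m) (s := z) h4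
      have e2 := Nat.choose_mul (n := n) (k := k) (s := z) hz
      have e3 := choose_swap (n - z) (m - z) (k - z) (by omega)
      have e4 : n - z - (m - z) = n - m := by omega
      have e5 : n - z - (k - z) = n - k := by omega
      rw [e4, e5] at e3
      calc n.choose m * (m.choose z * (n - m).choose (k - z) * 2 ^ k)
          = (n.choose m * m.choose z) * (n - m).choose (k - z) * 2 ^ k := by ring
        _ = n.choose z * ((n - z).choose (m - z) * (n - m).choose (k - z)) * 2 ^ k := by
            rw [e1]; ring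
        _ = n.choose z * ((n - z).choose (k - z) * (n - k).choose (m - z)) * 2 ^ k := by rw [e3]
        _ = (n.choose z * (n - z).choose (k - z)) * (n - k).choose (m - z) * 2 ^ k := by ring
        _ = _ := by rw [← e2]; ring
    · rcases Nat.lt_or_ge m z with h4 | h4
      · rw [Nat.choose_eq_zero_of_lt h4]
        ring
      · have h5 : ¬ m - z ≤ n - k := fun h6 => h ⟨h4, h6⟩
        rw [Nat.choose_eq_zero_of_lt (show n - m < k - z by omega)]
        ring
  rw [sum_congr rfl h3, ← sum_filter]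
  have h4 : (range (n + 1)).filter (fun m => z ≤ m ∧ m - z ≤ n - k) =
      (range (n - k + 1)).map (addRightEmbedding z) := by
    ext m
    simp only [mem_filter, mem_range, mem_map, addRightEmbedding_apply]
    constructor
    · rintro ⟨h5, h6, h7⟩
      exact ⟨m - z, by omega, by omega⟩
    · rintro ⟨i, h5, rfl⟩
      omega
  rw [h4, sum_map]
  simp only [addRightEmbedding_apply, Nat.add_sub_cancel]
  rw [← mul_sum, Nat.sum_range_choose]
  have h5 : 2 ^ n = 2 ^ k * 2 ^ (n - k) := by
    rw [← pow_add]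
    congr 1
    omega
  rw [h5]
  ring

/-- the system of a sequence of two-sided systems -/
theorem good_of_bi {k : ℕ} (hk : Even k) (d : ℕ → ℝ)
    (h : ∀ z ≤ k, Even z → BiGood z (k - z) (d z)) {t : ℝ}
    (ht : (∑ z ∈ (range (k + 1)).filter Even, (k.choose z : ℝ) * d z) ≤ t * 2 ^ k) :
    Good k (t * (k + 1)) := by
  intro n
  by_cases hkn : n < k
  · refine ⟨∅, ⟨by simp, ?_⟩, ?_⟩
    · intro Y _ hY
      have := Y.card_le_univ
      rw [Fintype.card_fin] at this
      omega
    · rw [Nat.choose_eq_zero_of_lt hkn]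
      simp
  push Not at hkn
  have hex : ∀ A : Finset (Fin n), ∀ z : ℕ, ∃ G : Finset (Finset (Fin n) × Finset (Fin n)),
      z ≤ k → Even z →
      (∀ p ∈ G, (p.1 ⊆ A ∧ p.1.card = z) ∧ p.2 ⊆ Aᶜ ∧ p.2.card = k - z) ∧
      (∀ X Y : Finset (Fin n), X ⊆ A → X.card = z + 1 → Y ⊆ Aᶜ → Y.card = k - z →
        ∃ x ∈ X, (X.erase x, Y) ∈ G) ∧
      (∀ X Y : Finset (Fin n), X ⊆ A → X.card = z → Y ⊆ Aᶜ → Y.card = k - z + 1 →
        ∃ y ∈ Y, (X, Y.erase y) ∈ G) ∧
      (G.card : ℝ) ≤ d z * ((A.card.choose z : ℝ) * ((Aᶜ).card.choose (k - z) : ℝ)) := by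
    intro A z
    by_cases hz : z ≤ k ∧ Even z
    · obtain ⟨G, hG⟩ := h z hz.1 hz.2 n A Aᶜ
      exact ⟨G, fun _ _ => hG⟩
    · exact ⟨∅, fun h1 h2 => absurd ⟨h1, h2⟩ hz⟩
  choose G hG using hex
  set Zs := (range (k + 1)).filter Even with hZs
  set F : Finset (Fin n) → Finset (Finset (Fin n)) := fun A =>
    Zs.biUnion fun z => (G A z).image fun p => p.1 ∪ p.2 with hF
  have hZ : ∀ z ∈ Zs, z ≤ k ∧ Even z := by
    intro z hz
    rw [hZs, mem_filter, mem_range] at hz
    exact ⟨by omega, hz.2⟩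
  have hcov : ∀ A, Cov univ k (F A) := by
    intro A
    refine ⟨?_, ?_⟩
    · intro Z hZm
      simp only [hF, mem_biUnion, mem_image] at hZm
      obtain ⟨z, hz, p, hp, rfl⟩ := hZm
      obtain ⟨hz1, hz2⟩ := hZ z hz
      obtain ⟨⟨h1, h2⟩, h3, h4⟩ := (hG A z hz1 hz2).1 p hp
      refine ⟨subset_univ _, ?_⟩
      rw [card_union_of_disjoint, h2, h4]
      · omega
      · rw [disjoint_left]
        intro x hx hx2
        exact (mem_compl.1 (h3 hx2)) (h1 hx)
    · intro Y _ hY
      have hsplit : (Y ∩ A).card + (Y ∩ Aᶜ).card = k + 1 := by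
        rw [← hY, ← card_union_of_disjoint, ← inter_union_distrib_left, union_compl, inter_univ]
        rw [disjoint_left]
        intro x hx hx2
        rw [mem_inter] at hx hx2
        exact (mem_compl.1 hx2.2) hx.2
      rcases Nat.even_or_odd (Y ∩ A).card with he | ho
      · have hne : (Y ∩ A).card ≤ k := by
          by_contra hcon
          have : (Y ∩ A).card = k + 1 := by omega
          rw [this] at he
          exact (Nat.not_even_iff_odd.2 hk.add_one) he
        obtain ⟨y, hy, hyG⟩ := (hG A _ hne he).2.2.1 (Y ∩ A) (Y ∩ Aᶜ) inter_subset_right rfl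
          inter_subset_right (by omega)
        refine ⟨(Y ∩ A) ∪ (Y ∩ Aᶜ).erase y, ?_, ?_⟩
        · simp only [hF, mem_biUnion, mem_image]
          refine ⟨(Y ∩ A).card, ?_, _, hyG, rfl⟩
          rw [hZs, mem_filter, mem_range]
          exact ⟨by omega, he⟩
        · exact union_subset inter_subset_left ((erase_subset _ _).trans inter_subset_left)
      · obtain ⟨z, hz⟩ : ∃ z, (Y ∩ A).card = z + 1 := ⟨(Y ∩ A).card - 1, by
          have := ho.pos
          omega⟩
        have he : Even z := by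
          rw [hz] at ho
          by_contra hcon
          rw [Nat.not_even_iff_odd] at hcon
          exact (Nat.not_even_iff_odd.2 ho) hcon.add_one
        have hzk : z ≤ k := by omega
        obtain ⟨x, hx, hxG⟩ := (hG A z hzk he).2.1 (Y ∩ A) (Y ∩ Aᶜ) inter_subset_right hz
          inter_subset_right (by omega)
        refine ⟨(Y ∩ A).erase x ∪ (Y ∩ Aᶜ), ?_, ?_⟩
        · simp only [hF, mem_biUnion, mem_image]
          refine ⟨z, ?_, _, hxG, rfl⟩
          rw [hZs, mem_filter, mem_range]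
          exact ⟨by omega, he⟩
        · exact union_subset ((erase_subset _ _).trans inter_subset_left) inter_subset_left
  have hsum : ∑ A : Finset (Fin n), ((F A).card : ℝ) * 2 ^ k ≤
      ∑ _A : Finset (Fin n), (n.choose k : ℝ) * (t * 2 ^ k) := by
    have h1 : ∀ A : Finset (Fin n), ((F A).card : ℝ) ≤
        ∑ z ∈ Zs, d z * ((A.card.choose z : ℝ) * ((Aᶜ).card.choose (k - z) : ℝ)) := by
      intro A
      have h2 : ((F A).card : ℝ) ≤ ∑ z ∈ Zs, ((G A z).card : ℝ) := by
        have : (F A).card ≤ ∑ z ∈ Zs, (G A z).card :=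
          card_biUnion_le.trans (sum_le_sum fun m _ => card_image_le)
        exact_mod_cast this
      refine h2.trans (sum_le_sum fun z hz => ?_)
      obtain ⟨hz1, hz2⟩ := hZ z hz
      exact (hG A z hz1 hz2).2.2.2
    calc ∑ A : Finset (Fin n), ((F A).card : ℝ) * 2 ^ k
        ≤ ∑ A : Finset (Fin n), (∑ z ∈ Zs, d z * ((A.card.choose z : ℝ) *
          ((Aᶜ).card.choose (k - z) : ℝ))) * 2 ^ k := by
          apply sum_le_sum
          intro A _
          exact mul_le_mul_of_nonneg_right (h1 A) (by positivity)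
      _ = ∑ z ∈ Zs, d z * ((∑ A : Finset (Fin n), (A.card.choose z) *
          ((Aᶜ).card.choose (k - z)) * 2 ^ k : ℕ) : ℝ) := by
          simp_rw [sum_mul]
          rw [sum_comm]
          apply sum_congr rfl
          intro z _
          push_cast
          rw [mul_sum]
          apply sum_congr rfl
          intro A _
          ring
      _ = ∑ z ∈ Zs, d z * ((n.choose k * k.choose z * 2 ^ n : ℕ) : ℝ) := by
          apply sum_congr rfl
          intro z hz
          rw [sum_powerset_pairs n k z (hZ z hz).1 hkn]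
      _ = (n.choose k : ℝ) * 2 ^ n * ∑ z ∈ Zs, (k.choose z : ℝ) * d z := by
          rw [mul_sum]
          apply sum_congr rfl
          intro z _
          push_cast
          ring
      _ ≤ (n.choose k : ℝ) * 2 ^ n * (t * 2 ^ k) := by
          apply mul_le_mul_of_nonneg_left ht
          positivity
      _ = _ := by
          rw [sum_const, Finset.card_univ, Fintype.card_finset, Fintype.card_fin, nsmul_eq_mul]
          push_cast
          ring
  obtain ⟨A, -, hA⟩ := Finset.exists_le_of_sum_le Finset.univ_nonempty hsum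
  refine ⟨F A, hcov A, ?_⟩
  have h2k : (0 : ℝ) < 2 ^ k := by positivity
  have h3 : ((F A).card : ℝ) ≤ t * (n.choose k : ℝ) := by
    have h4 : ((F A).card : ℝ) * 2 ^ k ≤ (t * (n.choose k : ℝ)) * 2 ^ k := by linarith
    exact le_of_mul_le_mul_right h4 h2k
  calc ((F A).card : ℝ) * (k + 1) ≤ (t * (n.choose k : ℝ)) * (k + 1) := by gcongr
    _ = _ := by ring

end Pool.Agent.TH485.Tur
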