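import Pool.Agent.TH485.Tur.Bi

/-!
Two-sided systems from random bits: the rows of a random `0/1` matrix on `c` ordered columns are
coloured, and the colours of the rows decide.
-/

set_option autoImplicit false

namespace Pool.Agent.TH485.Tur

open Finset Pool.Agent.H123R2

section
variable {V K : Type} [Fintype V] [DecidableEq V] [Fintype K] [DecidableEq K]

theorem swap_sumK (v : V) (F : (V → K) → K → ℕ) :
    ∑ g : V → K, ∑ x : K, F g x =
      ∑ g : V → K, ∑ x : K, F (Function.update g v x) (g v) := by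
  rw [← Fintype.sum_prod_type', ← Fintype.sum_prod_type']
  symm
  refine Finset.sum_nbij' (fun p => (Function.update p.1 v p.2, p.1 v))
    (fun p => (Function.update p.1 v p.2, p.1 v)) ?_ ?_ ?_ ?_ ?_
  · simp
  · simp
  · rintro ⟨g, x⟩ _
    simp
  · rintro ⟨g, x⟩ _
    simp
  · rintro ⟨g, x⟩ _
    simp

theorem sum_countK [Nonempty K] (L : List (ℕ × ℕ)) (val : K → ℕ)
    (hval : ∀ f : ℕ → ℕ, tw L * ∑ x : K, f (val x) =
      Fintype.card K * (L.map fun x => x.2 * f x.1).sum)
    (φ : ℕ → ℕ) (Z : Finset V) : ∀ s : ℕ,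
    tw L ^ Z.card * ∑ g : V → K, φ (s + ∑ v ∈ Z, val (g v)) =
      Fintype.card K ^ Fintype.card V * ev φ L Z.card s := by
  induction Z using Finset.induction_on with
  | empty =>
    intro s
    simp [ev_zero]
  | insert u Z hu ih =>
    intro s
    have hK : 0 < Fintype.card K := Fintype.card_pos
    apply Nat.eq_of_mul_eq_mul_left hK
    have h2 : ∀ g : V → K, ∀ x : K,
        φ (s + val (g u) + ∑ v ∈ Z, val (Function.update g u x v)) =
        φ (s + ∑ v ∈ insert u Z, val (g v)) := by
      intro g x
      rw [Finset.sum_insert hu]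
      congr 1
      rw [← Nat.add_assoc]
      congr 1
      apply Finset.sum_congr rfl
      intro v hv
      have : v ≠ u := fun h => hu (h ▸ hv)
      rw [Function.update_of_ne this]
    have h3 : ∑ x : K, ∑ g : V → K, φ (s + val x + ∑ v ∈ Z, val (g v)) =
        Fintype.card K * ∑ g : V → K, φ (s + ∑ v ∈ insert u Z, val (g v)) := by
      rw [Finset.sum_comm, swap_sumK u]
      simp only [h2]
      rw [Finset.mul_sum]
      apply Finset.sum_congr rfl
      intro g _
      simp
    rw [Finset.card_insert_of_notMem hu, ev_succ]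
    calc Fintype.card K * (tw L ^ (Z.card + 1) * ∑ g : V → K, φ (s + ∑ v ∈ insert u Z, val (g v)))
        = tw L * (tw L ^ Z.card * (Fintype.card K *
            ∑ g : V → K, φ (s + ∑ v ∈ insert u Z, val (g v)))) := by ring
      _ = tw L * ∑ x : K, (tw L ^ Z.card * ∑ g : V → K, φ (s + val x + ∑ v ∈ Z, val (g v))) := by
          rw [← h3, ← Finset.mul_sum]
      _ = tw L * ∑ x : K, Fintype.card K ^ Fintype.card V * ev φ L Z.card (s + val x) := by
          congr 1
          exact Finset.sum_congr rfl fun x _ => ih _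
      _ = Fintype.card K ^ Fintype.card V * (tw L * ∑ x : K, ev φ L Z.card (s + val x)) := by
          rw [← Finset.mul_sum]
          ring
      _ = Fintype.card K ^ Fintype.card V * (Fintype.card K *
            (L.map fun x => x.2 * ev φ L Z.card (s + x.1)).sum) := by
          rw [hval (fun a => ev φ L Z.card (s + a))]
      _ = _ := by ring

end

/-- restriction of random bits to `c` places is uniform -/
theorem restr {n c : ℕ} (e : Fin c → Fin n) (he : Function.Injective e) (F : (Fin c → Bool) → ℕ) :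
    2 ^ c * ∑ x : Fin n → Bool, F (fun i => x (e i)) = 2 ^ n * ∑ u : Fin c → Bool, F u := by
  set ex : (Fin c → Bool) → Fin n → Bool := fun u => Function.extend e u (fun _ => false) with hex
  have hexe : ∀ u i, ex u (e i) = u i := fun u i => he.extend_apply u _ i
  have h1 : ∀ u : Fin c → Bool, ∑ x : Fin n → Bool, F (fun i => x (e i)) =
      ∑ x : Fin n → Bool, F (fun i => xor (x (e i)) (u i)) := by
    intro u
    refine Finset.sum_nbij' (fun x v => xor (x v) (ex u v)) (fun x v => xor (x v) (ex u v))
      ?_ ?_ ?_ ?_ ?_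
    · simp
    · simp
    · intro x _
      funext v
      simp
    · intro x _
      funext v
      simp
    · intro x _
      congr 1
      funext i
      simp [hexe]
  have h2 : ∑ _u : Fin c → Bool, ∑ x : Fin n → Bool, F (fun i => x (e i)) =
      2 ^ c * ∑ x : Fin n → Bool, F (fun i => x (e i)) := by
    rw [Finset.sum_const, Finset.card_univ, Fintype.card_fun, Fintype.card_bool, Fintype.card_fin,
      smul_eq_mul]
  have h3 : ∀ x : Fin n → Bool, ∑ u : Fin c → Bool, F (fun i => xor (x (e i)) (u i)) =
      ∑ u : Fin c → Bool, F u := by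
    intro x
    refine Finset.sum_nbij' (fun u i => xor (x (e i)) (u i)) (fun u i => xor (x (e i)) (u i))
      ?_ ?_ ?_ ?_ ?_
    · simp
    · simp
    · intro u _
      funext i
      simp
    · intro u _
      funext i
      simp
    · intro u _
      rfl
  rw [← h2, Finset.sum_congr rfl fun u _ => h1 u, Finset.sum_comm,
    Finset.sum_congr rfl fun x _ => h3 x, Finset.sum_const, Finset.card_univ, Fintype.card_fun,
    Fintype.card_bool, Fintype.card_fin, smul_eq_mul]

/-! ### the check for the columns -/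

/-- all multisets of `j` elements of the list satisfy `Q` -/
def chkS (Q : ℕ → Bool) : List ℕ → ℕ → ℕ → Bool
  | [], j, s => match j with
    | 0 => Q s
    | _ + 1 => true
  | [a], j, s => Q (s + j * a)
  | a :: b :: L, j, s => lpB (fun r s' => chkS Q (b :: L) r s') a j s

theorem chkS_spec (Q : ℕ → Bool) : ∀ (L : List ℕ) (j s : ℕ), chkS Q L j s = true →
    ∀ m : Multiset ℕ, (∀ x ∈ m, x ∈ L) → Multiset.card m = j → Q (s + m.sum) = true
  | [], j, s, h, m, hm, hc => by
    have hm0 : m = 0 := Multiset.eq_zero_of_forall_notMem fun x hx => by simpa using hm x hx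
    subst hm0
    simp only [Multiset.card_zero] at hc
    subst hc
    simpa [chkS] using h
  | [a], j, s, h, m, hm, hc => by
    have hm0 : m = Multiset.replicate j a := by
      rw [Multiset.eq_replicate]
      exact ⟨hc, fun x hx => by simpa using hm x hx⟩
    subst hm0
    rw [Multiset.sum_replicate, smul_eq_mul]
    simpa [chkS] using h
  | a :: b :: L, j, s, h, m, hm, hc => by
    rw [chkS] at h
    set m' := m.filter (fun x => x ≠ a) with hm'
    have hsplit : Multiset.replicate (m.count a) a + m' = m := by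
      have := Multiset.filter_add_not (fun x => x = a) m
      rw [Multiset.filter_eq'] at this
      exact this
    have hm'L : ∀ x ∈ m', x ∈ b :: L := by
      intro x hx
      rw [hm', Multiset.mem_filter] at hx
      have := hm x hx.1
      rcases List.mem_cons.1 this with h3 | h3
      · exact absurd h3 hx.2
      · exact h3
    have hcard : m.count a + Multiset.card m' = j := by
      rw [← hc]
      conv_rhs => rw [← hsplit]
      simp
    have hsum : m.sum = m.count a * a + m'.sum := by
      conv_lhs => rw [← hsplit]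
      simp
    have h3 := lpB_spec _ a j s h (m.count a) (by omega)
    have h4 := chkS_spec Q (b :: L) _ _ h3 m' hm'L (by omega)
    rw [hsum, ← Nat.add_assoc]
    exact h4

/-- digits -/
theorem digit (B : ℕ) (hB : 0 < B) : ∀ (n : ℕ) (f : ℕ → ℕ), (∀ i, f i < B) → ∀ j < n,
    (∑ i ∈ range n, f i * B ^ i) / B ^ j % B = f j
  | 0, _, _, j, hj => by omega
  | n + 1, f, hf, j, hj => by
    have h1 : ∑ i ∈ range (n + 1), f i * B ^ i =
        f 0 + B * ∑ i ∈ range n, f (i + 1) * B ^ i := by
      rw [Finset.sum_range_succ', Finset.mul_sum, Nat.add_comm]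
      congr 1
      · simp
      · apply Finset.sum_congr rfl
        intro i _
        ring
    rw [h1]
    rcases j with _ | j
    · rw [pow_zero, Nat.div_one, Nat.add_mul_mod_self_left]
      exact Nat.mod_eq_of_lt (hf 0)
    · have h2 : (f 0 + B * ∑ i ∈ range n, f (i + 1) * B ^ i) / B ^ (j + 1) =
          (∑ i ∈ range n, f (i + 1) * B ^ i) / B ^ j := by
        rw [pow_succ', ← Nat.div_div_eq_div_mul, Nat.add_mul_div_left _ _ hB,
          Nat.div_eq_of_lt (hf 0), Nat.zero_add]
      rw [h2]
      exact digit B hB n (fun i => f (i + 1)) (fun i => hf _) j (by omega)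

section
variable {n : ℕ}

/-- the colour of a row on the columns `Y` -/
def cv {c : ℕ} (hh : (Fin c → Bool) → ℕ) (Y : Finset (Fin n)) (x : Fin n → Bool) : ℕ :=
  if h : Y.card = c then hh (fun i => x (Y.orderEmbOfFin h i)) else 0

/-- the packed colours of a row on `c + 1` columns, one of them removed -/
def pk {c : ℕ} (hh : (Fin c → Bool) → ℕ) (B : ℕ) (u : Fin (c + 1) → Bool) : ℕ :=
  ∑ i : Fin (c + 1), hh (fun j => u (i.succAbove j)) * B ^ (i : ℕ)

theorem emb_erase {c : ℕ} (Y : Finset (Fin n)) (h : Y.card = c + 1) (i : Fin (c + 1))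
    (h' : (Y.erase (Y.orderEmbOfFin h i)).card = c) (j : Fin c) :
    (Y.erase (Y.orderEmbOfFin h i)).orderEmbOfFin h' j = Y.orderEmbOfFin h (i.succAbove j) := by
  have := Finset.orderEmbOfFin_unique h' (f := fun j => Y.orderEmbOfFin h (i.succAbove j))
    (fun x => by
      rw [mem_erase]
      refine ⟨?_, Finset.orderEmbOfFin_mem _ _ _⟩
      intro hcon
      exact Fin.succAbove_ne i x ((Y.orderEmbOfFin h).injective hcon))
    (fun a b hab => (Y.orderEmbOfFin h).strictMono (Fin.strictMono_succAbove i hab))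
  exact (congrFun this j).symm

end

/-- two-sided systems from colour tables -/
theorem bi_of_code {c r : ℕ} (hh : (Fin c → Bool) → ℕ) (P : ℕ → Bool) (L : List (ℕ × ℕ))
    (hL : (univ : Finset (Fin c → Bool)).val.map hh = ((cols L : List ℕ) : Multiset ℕ))
    (hc1 : chk P (L.map Prod.fst) (r + 1) 0 [] = true)
    (B : ℕ) (hB : ∀ u, hh u * r < B) (LS : List ℕ) (hLS : ∀ u : Fin (c + 1) → Bool, pk hh B u ∈ LS)
    (hc2 : chkS (fun s => (List.range (c + 1)).any fun i => P (s / B ^ i % B)) LS r 0 = true)
    {N : ℕ} (hN : ev (fun s => if P s then 1 else 0) L r 0 ≤ N) {d : ℝ}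
    (hd : (N : ℝ) ≤ d * (2 ^ c) ^ r) : BiGood r c d := by
  intro n A C
  have hB0 : 0 < B := lt_of_le_of_lt (Nat.zero_le _) (hB fun _ => false)
  have htw : tw L = 2 ^ c := by
    rw [← length_cols]
    have := congrArg Multiset.card hL
    simpa using this.symm
  have hsumL : ∀ f : ℕ → ℕ, ∑ u : Fin c → Bool, f (hh u) = (L.map fun x => x.2 * f x.1).sum := by
    intro f
    rw [← sum_cols f L]
    have h1 : ∑ u : Fin c → Bool, f (hh u) = (((univ : Finset (Fin c → Bool)).val.map hh).map f).sum := by
      rw [Multiset.map_map]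
      rfl
    rw [h1, hL]
    simp
  have hmemL : ∀ u, hh u ∈ L.map Prod.fst := by
    intro u
    have h1 : hh u ∈ ((cols L : List ℕ) : Multiset ℕ) := by
      rw [← hL]
      exact Multiset.mem_map_of_mem _ (Finset.mem_univ_val u)
    rw [Multiset.mem_coe, cols, List.mem_flatMap] at h1
    obtain ⟨x, hx, hx2⟩ := h1
    rw [List.eq_of_mem_replicate hx2]
    exact List.mem_map_of_mem hx
  set φ : ℕ → ℕ := fun s => if P s then 1 else 0 with hφ
  set G : (Fin n → Fin n → Bool) → Finset (Finset (Fin n) × Finset (Fin n)) := fun M =>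
    (powersetCard r A ×ˢ powersetCard c C).filter
      (fun p => P (∑ x ∈ p.1, cv hh p.2 (M x)) = true) with hG
  have hmem : ∀ M X Y, (X, Y) ∈ G M ↔ ((X ⊆ A ∧ X.card = r) ∧ Y ⊆ C ∧ Y.card = c) ∧
      P (∑ x ∈ X, cv hh Y (M x)) = true := by
    intro M X Y
    simp only [hG, mem_filter, mem_product, mem_powersetCard]
  have hcount : ∑ M : Fin n → Fin n → Bool, (2 ^ c) ^ r * (G M).card ≤
      ∑ _M : Fin n → Fin n → Bool, N * (A.card.choose r * C.card.choose c) := by
    have h1 : ∀ M, (G M).card = ∑ p ∈ powersetCard r A ×ˢ powersetCard c C,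
        φ (0 + ∑ x ∈ p.1, cv hh p.2 (M x)) := by
      intro M
      simp only [hG]
      rw [Finset.card_filter]
      simp only [hφ, Nat.zero_add]
    simp_rw [h1]
    rw [← Finset.mul_sum, Finset.sum_comm, Finset.mul_sum]
    have h2 : ∀ p ∈ powersetCard r A ×ˢ powersetCard c C,
        (2 ^ c) ^ r * ∑ M : Fin n → Fin n → Bool, φ (0 + ∑ x ∈ p.1, cv hh p.2 (M x)) =
        (2 ^ n) ^ n * ev φ L r 0 := by
      intro p hp
      rw [mem_product, mem_powersetCard, mem_powersetCard] at hp
      have h3 := sum_countK (V := Fin n) (K := Fin n → Bool) L (cv hh p.2) (by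
        intro f
        have h4 := restr (fun i => p.2.orderEmbOfFin hp.2.2 i) (p.2.orderEmbOfFin hp.2.2).injective
          (fun u => f (hh u))
        have h5 : ∀ x : Fin n → Bool, cv hh p.2 x =
            hh (fun i => x (p.2.orderEmbOfFin hp.2.2 i)) := by
          intro x
          rw [cv, dif_pos hp.2.2]
        simp_rw [h5]
        rw [htw, h4, hsumL, Fintype.card_fun, Fintype.card_bool, Fintype.card_fin]) φ p.1 0
      rw [hp.1.2, htw, Fintype.card_fun, Fintype.card_bool, Fintype.card_fin] at h3
      exact h3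
    rw [Finset.sum_congr rfl h2, Finset.sum_const, card_product, card_powersetCard,
      card_powersetCard, Finset.sum_const, Finset.card_univ, Fintype.card_fun, Fintype.card_fun,
      Fintype.card_bool, Fintype.card_fin, smul_eq_mul, smul_eq_mul]
    calc A.card.choose r * C.card.choose c * ((2 ^ n) ^ n * ev φ L r 0) ≤
        A.card.choose r * C.card.choose c * ((2 ^ n) ^ n * N) := by gcongr
      _ = _ := by ring
  obtain ⟨M, -, hM⟩ := Finset.exists_le_of_sum_le Finset.univ_nonempty hcount
  refine ⟨G M, ?_, ?_, ?_, ?_⟩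
  · rintro ⟨X, Y⟩ hp
    rw [hmem] at hp
    exact hp.1
  · intro X Y hX hXc hY hYc
    obtain ⟨x, hx, hP⟩ := chk_spec P (L.map Prod.fst) (r + 1) 0 [] hc1
      (X.val.map fun x => cv hh Y (M x)) (by
        intro y hy
        obtain ⟨v, _, rfl⟩ := Multiset.mem_map.1 hy
        rw [cv, dif_pos hYc]
        exact hmemL _) (by simpa using hXc)
    rcases hx with hx | hx
    · simp at hx
    · obtain ⟨v, hv, rfl⟩ := Multiset.mem_map.1 hx
      refine ⟨v, hv, ?_⟩
      rw [hmem]
      refine ⟨⟨⟨(erase_subset _ _).trans hX, ?_⟩, hY, hYc⟩, ?_⟩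
      · rw [card_erase_of_mem hv, hXc]
        rfl
      · have h1 : ∑ u ∈ X.erase v, cv hh Y (M u) + cv hh Y (M v) = ∑ u ∈ X, cv hh Y (M u) :=
          Finset.sum_erase_add _ _ hv
        have h2 : (X.val.map fun x => cv hh Y (M x)).sum = ∑ u ∈ X, cv hh Y (M u) := rfl
        rw [h2, ← h1, Nat.zero_add, Nat.add_sub_cancel] at hP
        exact hP
  · intro X Y hX hXc hY hYc
    set e := Y.orderEmbOfFin hYc with he
    have h1 := chkS_spec _ LS r 0 hc2 (X.val.map fun x => pk hh B (fun i => M x (e i))) (by
      intro y hy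
      obtain ⟨v, _, rfl⟩ := Multiset.mem_map.1 hy
      exact hLS _) (by simpa using hXc)
    rw [Nat.zero_add, List.any_eq_true] at h1
    obtain ⟨i, hi, hP⟩ := h1
    rw [List.mem_range] at hi
    have hmemY : e ⟨i, hi⟩ ∈ Y := Finset.orderEmbOfFin_mem _ _ _
    have hcY : (Y.erase (e ⟨i, hi⟩)).card = c := by
      rw [card_erase_of_mem hmemY, hYc]
      rfl
    refine ⟨e ⟨i, hi⟩, hmemY, ?_⟩
    rw [hmem]
    refine ⟨⟨⟨hX, hXc⟩, (erase_subset _ _).trans hY, hcY⟩, ?_⟩
    set f : ℕ → ℕ := fun i => if h : i < c + 1 then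
      ∑ x ∈ X, hh (fun j => M x (e ((⟨i, h⟩ : Fin (c + 1)).succAbove j))) else 0 with hf
    have hfB : ∀ i, f i < B := by
      intro i
      simp only [hf]
      split_ifs with h
      · by_cases hr : r = 0
        · have : X = ∅ := by
            rw [← card_eq_zero, hXc, hr]
          rw [this]
          simpa using hB0
        · obtain ⟨v, hv⟩ : X.Nonempty := by
            rw [← card_pos]
            omega
          obtain ⟨w, hw, hmax⟩ := Finset.exists_max_image X
            (fun x => hh (fun j => M x (e ((⟨i, h⟩ : Fin (c + 1)).succAbove j)))) ⟨v, hv⟩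
          calc ∑ x ∈ X, hh (fun j => M x (e ((⟨i, h⟩ : Fin (c + 1)).succAbove j)))
              ≤ X.card • hh (fun j => M w (e ((⟨i, h⟩ : Fin (c + 1)).succAbove j))) :=
                Finset.sum_le_card_nsmul _ _ _ hmax
            _ = hh (fun j => M w (e ((⟨i, h⟩ : Fin (c + 1)).succAbove j))) * r := by
                rw [hXc, smul_eq_mul, Nat.mul_comm]
            _ < B := hB _
      · exact hB0
    have hsum : (X.val.map fun x => pk hh B (fun i => M x (e i))).sum =
        ∑ i ∈ range (c + 1), f i * B ^ i := by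
      have h2 : (X.val.map fun x => pk hh B (fun i => M x (e i))).sum =
          ∑ x ∈ X, pk hh B (fun i => M x (e i)) := rfl
      rw [h2, ← Fin.sum_univ_eq_sum_range (fun i => f i * B ^ i)]
      simp only [pk]
      rw [Finset.sum_comm]
      apply Finset.sum_congr rfl
      intro i _
      simp only [hf, Fin.is_lt, dif_pos, Fin.eta]
      rw [Finset.sum_mul]
    rw [hsum, digit B hB0 (c + 1) f hfB i hi] at hP
    have h3 : f i = ∑ x ∈ X, cv hh (Y.erase (e ⟨i, hi⟩)) (M x) := by
      simp only [hf, dif_pos hi]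
      apply Finset.sum_congr rfl
      intro x _
      rw [cv, dif_pos hcY]
      congr 1
      funext j
      exact congrArg (M x) (emb_erase Y hYc ⟨i, hi⟩ hcY j).symm
    rwa [h3] at hP
  · have hpos : (0 : ℝ) < (2 ^ c) ^ r := by positivity
    have h1 : ((2 : ℝ) ^ c) ^ r * ((G M).card : ℝ) ≤
        (N : ℝ) * ((A.card.choose r : ℝ) * (C.card.choose c : ℝ)) := by exact_mod_cast hM
    have h2 : ((2 : ℝ) ^ c) ^ r * ((G M).card : ℝ) ≤
        (2 ^ c) ^ r * (d * ((A.card.choose r : ℝ) * (C.card.choose c : ℝ))) := by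
      calc _ ≤ (N : ℝ) * ((A.card.choose r : ℝ) * (C.card.choose c : ℝ)) := h1
        _ ≤ (d * (2 ^ c) ^ r) * ((A.card.choose r : ℝ) * (C.card.choose c : ℝ)) := by gcongr
        _ = _ := by ring
    exact le_of_mul_le_mul_left h2 hpos

end Pool.Agent.TH485.Tur
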