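import Pool.Agent.TH485.Tur.Even
import Pool.Agent.H369R2.TD.Basic

/-!
The two ways of stating a bound for `t(k+1,k)`: `Good k (δ (k+1))` and `Tur k δ`.
Also the bound for `k = 14`.
-/

set_option autoImplicit false

namespace Pool.Agent.TH485.Tur

open Finset Pool.Agent.H123R2 Pool.Agent.H242R2.Turan Pool.Agent.H369R2.TD

theorem good_of_tur {k : ℕ} {δ : ℝ} (h : Tur k δ) : Good k (δ * ((k : ℕ) + 1)) := by
  intro n
  obtain ⟨T, h1, h2, h3⟩ := h n
  refine ⟨T, ⟨fun Z hZ => ⟨Finset.subset_univ _, h1 Z hZ⟩, fun Y _ hY => h2 Y hY⟩, ?_⟩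
  have hk : (0 : ℝ) ≤ (k : ℝ) + 1 := by positivity
  calc (T.card : ℝ) * (k + 1) ≤ (δ * (n.choose k : ℝ)) * (k + 1) := by gcongr
    _ = δ * ((k : ℕ) + 1) * (n.choose k : ℝ) := by ring

theorem tur_of_good {k : ℕ} {δ c : ℝ} (h : Good k c) (hc : c ≤ δ * ((k : ℝ) + 1)) :
    Tur k δ := by
  intro n
  obtain ⟨F, ⟨h1, h2⟩, h3⟩ := h n
  refine ⟨F, fun Z hZ => (h1 Z hZ).2, fun Y hY => h2 Y (Finset.subset_univ _) hY, ?_⟩
  have hk : (0 : ℝ) < (k : ℝ) + 1 := by positivity
  have h4 : (F.card : ℝ) * (k + 1) ≤ (δ * (n.choose k : ℝ)) * (k + 1) := by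
    calc (F.card : ℝ) * (k + 1) ≤ c * (n.choose k : ℝ) := h3
      _ ≤ δ * ((k : ℝ) + 1) * (n.choose k : ℝ) := by gcongr
      _ = (δ * (n.choose k : ℝ)) * (k + 1) := by ring
  exact le_of_mul_le_mul_right h4 hk

/-- `k = 14` -/
theorem good_14 : Good 14 ((93 + 2 * 4004 * J6) / 16384 * (14 + 1)) := by
  have h := good_of_bi (k := 14) (by decide)
    (fun z => if z = 0 ∨ z = 14 then 1 else if z = 2 ∨ z = 12 then 1 / 2 else J6)
    (by
      intro z hz he
      have h1 : z = 0 ∨ z = 2 ∨ z = 4 ∨ z = 6 ∨ z = 8 ∨ z = 10 ∨ z = 12 ∨ z = 14 := by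
        obtain ⟨y, rfl⟩ := he
        omega
      rcases h1 with rfl | rfl | rfl | rfl | rfl | rfl | rfl | rfl
      · simpa using biGood_one 0 14
      · simpa using b2_bi.of_le (le_refl 2) (show 2 ≤ 12 by norm_num)
      · simpa using bi_big (z := 4) (w := 10) (by norm_num) (by norm_num) (by norm_num)
          (by decide)
      · simpa using bi_big (z := 6) (w := 8) (by norm_num) (by norm_num) (by norm_num)
          (by decide)
      · simpa using bi_big (z := 8) (w := 6) (by norm_num) (by norm_num) (by norm_num)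
          (by decide)
      · simpa using bi_big (z := 10) (w := 4) (by norm_num) (by norm_num) (by norm_num)
          (by decide)
      · simpa using b2_bi.of_le (show 2 ≤ 12 by norm_num) (le_refl 2)
      · simpa using biGood_one 14 0) (t := (93 + 2 * 4004 * J6) / 16384) (by
      rw [show (range (14 + 1)).filter Even = {0, 2, 4, 6, 8, 10, 12, 14} by decide]
      norm_num [Finset.sum_insert, Nat.choose, J6])
  exact_mod_cast h

end Pool.Agent.TH485.Tur
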