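import Pool.Agent.TH485.Tur.CodeData
import Pool.Agent.H242R2.Turan.T9

/-!
New Turán densities `t(k+1,k)` for even `k ≥ 8`.
-/

set_option autoImplicit false

namespace Pool.Agent.TH485.Tur

open Finset Pool.Agent.H123R2 Pool.Agent.H242R2.Turan

/-- the density of the two-sided systems with six rows and four columns -/
noncomputable def J6 : ℝ := 84880 / 262144

theorem b6_bi' : BiGood 6 4 J6 := b6_bi

theorem bi_big {z w : ℕ} (hz : 4 ≤ z) (hw : 4 ≤ w) (h : 10 ≤ z + w) (he : Even z) :
    BiGood z w J6 := by
  rcases Nat.lt_or_ge z 6 with h1 | h1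
  · have h2 : z = 4 := by
      obtain ⟨y, rfl⟩ := he
      omega
    exact b6_bi'.symm.of_le hz (by omega)
  · exact b6_bi'.of_le h1 hw

/-- `k = 8` -/
theorem good_8 : Good 8 (865 / 4096 * (8 + 1)) := by
  have h := good_of_bi (k := 8) (by decide)
    (fun z => if z = 0 ∨ z = 8 then 1 else if z = 2 ∨ z = 6 then 1 / 2 else 1408 / 4096)
    (by
      intro z hz he
      have h1 : z = 0 ∨ z = 2 ∨ z = 4 ∨ z = 6 ∨ z = 8 := by
        obtain ⟨y, rfl⟩ := he
        omega
      rcases h1 with rfl | rfl | rfl | rfl | rfl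
      · simpa using biGood_one 0 8
      · simpa using b2_bi.of_le (le_refl 2) (show 2 ≤ 6 by norm_num)
      · simpa using b4_bi
      · simpa using b2_bi.of_le (show 2 ≤ 6 by norm_num) (le_refl 2)
      · simpa using biGood_one 8 0) (t := 865 / 4096) (by
      rw [show (range (8 + 1)).filter Even = {0, 2, 4, 6, 8} by decide]
      norm_num [Finset.sum_insert, Nat.choose])
  exact_mod_cast h

/-- `k = 10` -/
theorem good_10 : Good 10 (749537 / 4194304 * (10 + 1)) := by
  have h := good_of_bi (k := 10) (by decide)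
    (fun z => if z = 0 ∨ z = 10 then 1 else if z = 2 ∨ z = 8 then 1 / 2 else J6)
    (by
      intro z hz he
      have h1 : z = 0 ∨ z = 2 ∨ z = 4 ∨ z = 6 ∨ z = 8 ∨ z = 10 := by
        obtain ⟨y, rfl⟩ := he
        omega
      rcases h1 with rfl | rfl | rfl | rfl | rfl | rfl
      · simpa using biGood_one 0 10
      · simpa using b2_bi.of_le (le_refl 2) (show 2 ≤ 8 by norm_num)
      · simpa using bi_big (z := 4) (w := 6) (by norm_num) (by norm_num) (by norm_num)
          (by decide)
      · simpa using bi_big (z := 6) (w := 4) (by norm_num) (by norm_num) (by norm_num)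
          (by decide)
      · simpa using b2_bi.of_le (show 2 ≤ 8 by norm_num) (le_refl 2)
      · simpa using biGood_one 10 0) (t := 749537 / 4194304) (by
      rw [show (range (10 + 1)).filter Even = {0, 2, 4, 6, 8, 10} by decide]
      norm_num [Finset.sum_insert, Nat.choose, J6])
  exact_mod_cast h

/-- `k = 12` -/
theorem good_12 : Good 12 (5633941 / 33554432 * (12 + 1)) := by
  have h := good_of_bi (k := 12) (by decide)
    (fun z => if z = 0 ∨ z = 12 then 1 else if z = 2 ∨ z = 10 then 1 / 2 else J6)
    (by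
      intro z hz he
      have h1 : z = 0 ∨ z = 2 ∨ z = 4 ∨ z = 6 ∨ z = 8 ∨ z = 10 ∨ z = 12 := by
        obtain ⟨y, rfl⟩ := he
        omega
      rcases h1 with rfl | rfl | rfl | rfl | rfl | rfl | rfl
      · simpa using biGood_one 0 12
      · simpa using b2_bi.of_le (le_refl 2) (show 2 ≤ 10 by norm_num)
      · simpa using bi_big (z := 4) (w := 8) (by norm_num) (by norm_num) (by norm_num)
          (by decide)
      · simpa using bi_big (z := 6) (w := 6) (by norm_num) (by norm_num) (by norm_num)
          (by decide)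
      · simpa using bi_big (z := 8) (w := 4) (by norm_num) (by norm_num) (by norm_num)
          (by decide)
      · simpa using b2_bi.of_le (show 2 ≤ 10 by norm_num) (le_refl 2)
      · simpa using biGood_one 12 0) (t := 5633941 / 33554432) (by
      rw [show (range (12 + 1)).filter Even = {0, 2, 4, 6, 8, 10, 12} by decide]
      norm_num [Finset.sum_insert, Nat.choose, J6])
  exact_mod_cast h

/-- monotonicity of the densities -/
theorem Good.up {r : ℕ} {t : ℝ} (h : Good r (t * (r + 1))) : ∀ i : ℕ,
    Good (r + i) (t * ((r + i : ℕ) + 1))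
  | 0 => h
  | i + 1 => Good.succ (Good.up h i)

theorem Good.of_le {r s : ℕ} {t : ℝ} (h : Good r (t * (r + 1))) (hrs : r ≤ s) :
    Good s (t * ((s : ℕ) + 1)) := by
  obtain ⟨i, rfl⟩ := Nat.exists_eq_add_of_le hrs
  exact Good.up h i

end Pool.Agent.TH485.Tur
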