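import Pool.Agent.H123R2.Transport

/-!
Turán systems from colourings: a family of colour profiles which covers all larger profiles gives a
covering family, the colours being drawn independently at random.
-/

set_option autoImplicit false

namespace Pool.Agent.TH485.Tur

open Finset Pool.Agent.H123R2

/-! ### counting -/

/-- the inner loop of `ev` -/
def lp (g : ℕ → ℕ → ℕ) (a w : ℕ) : ℕ → ℕ → ℕ → ℕ → ℕ
  | 0, _, s, c => c * g 0 s
  | r + 1, t, s, c => c * g (r + 1) s + lp g a w r (t + 1) (s + a) (c * (r + 1) * w / (t + 1))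

/-- the weighted sum of `φ (s + sum)` over all sequences of length `j` of colours -/
def ev (φ : ℕ → ℕ) : List (ℕ × ℕ) → ℕ → ℕ → ℕ
  | [], j, s => if j = 0 then φ s else 0
  | [(a, w)], j, s => w ^ j * φ (s + j * a)
  | (a, w) :: b :: L, j, s => lp (fun j' s' => ev φ (b :: L) j' s') a w j 0 s 1

theorem lp_eq (g : ℕ → ℕ → ℕ) (a w j : ℕ) : ∀ r t s : ℕ, t + r = j →
    lp g a w r t s (j.choose t * w ^ t) =
      ∑ i ∈ range (r + 1), j.choose (t + i) * w ^ (t + i) * g (r - i) (s + i * a)
  | 0, t, s, _ => by simp [lp]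
  | r + 1, t, s, h => by
    have h1 : j.choose t * w ^ t * (r + 1) * w / (t + 1) = j.choose (t + 1) * w ^ (t + 1) := by
      have h2 := Nat.choose_succ_right_eq j t
      have h3 : j - t = r + 1 := by omega
      rw [h3] at h2
      apply Nat.div_eq_of_eq_mul_left (Nat.succ_pos t)
      rw [pow_succ]
      calc j.choose t * w ^ t * (r + 1) * w = (j.choose t * (r + 1)) * (w ^ t * w) := by ring
        _ = (j.choose (t + 1) * (t + 1)) * (w ^ t * w) := by rw [h2]
        _ = _ := by rw [Nat.succ_eq_add_one]; ring
    rw [lp, h1, lp_eq g a w j r (t + 1) (s + a) (by omega), Finset.sum_range_succ' _ (r + 1)]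
    simp only [Nat.add_zero, Nat.sub_zero, Nat.zero_mul]
    rw [Nat.add_comm]
    congr 1
    apply Finset.sum_congr rfl
    intro i _
    have e1 : t + 1 + i = t + (i + 1) := by ring
    have e2 : r + 1 - (i + 1) = r - i := by omega
    have e3 : s + a + i * a = s + (i + 1) * a := by ring
    rw [e1, e2, e3]

theorem ev_cons (φ : ℕ → ℕ) (a w : ℕ) (b : ℕ × ℕ) (L : List (ℕ × ℕ)) (j s : ℕ) :
    ev φ ((a, w) :: b :: L) j s =
      ∑ i ∈ range (j + 1), j.choose i * w ^ i * ev φ (b :: L) (j - i) (s + i * a) := by
  rw [ev]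
  have h := lp_eq (fun j' s' => ev φ (b :: L) j' s') a w j j 0 s (by simp)
  simp only [Nat.choose_zero_right, pow_zero, mul_one, Nat.zero_add] at h
  exact h

theorem ev_zero (φ : ℕ → ℕ) : ∀ (L : List (ℕ × ℕ)) (s : ℕ), ev φ L 0 s = φ s
  | [], s => by simp [ev]
  | [(a, w)], s => by simp [ev]
  | (a, w) :: b :: L, s => by
    rw [ev_cons]
    simp [ev_zero φ (b :: L) s]

/-- `ev` satisfies the recursion of the sum over sequences -/
theorem ev_succ (φ : ℕ → ℕ) : ∀ (L : List (ℕ × ℕ)) (j s : ℕ),
    ev φ L (j + 1) s = (L.map fun x => x.2 * ev φ L j (s + x.1)).sum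
  | [], j, s => by simp [ev]
  | [(a, w)], j, s => by
    simp only [ev, List.map_cons, List.map_nil, List.sum_cons, List.sum_nil, Nat.add_zero]
    have : s + (j + 1) * a = s + a + j * a := by ring
    rw [this]
    ring
  | (a, w) :: b :: L, j, s => by
    have ih := ev_succ φ (b :: L)
    rw [List.map_cons, List.sum_cons]
    have h1 : (List.map (fun x : ℕ × ℕ => x.2 * ev φ ((a, w) :: b :: L) j (s + x.1)) (b :: L)).sum =
        ∑ i ∈ range (j + 1), j.choose i * w ^ i * ev φ (b :: L) (j - i + 1) (s + i * a) := by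
      have h2 : ∀ M : List (ℕ × ℕ), (List.map (fun x : ℕ × ℕ =>
          x.2 * ev φ ((a, w) :: b :: L) j (s + x.1)) M).sum =
          ∑ i ∈ range (j + 1), j.choose i * w ^ i *
            (M.map fun x => x.2 * ev φ (b :: L) (j - i) (s + i * a + x.1)).sum := by
        intro M
        induction M with
        | nil => simp
        | cons x M ihM =>
          rw [List.map_cons, List.sum_cons, ihM, ev_cons, Finset.mul_sum, ← Finset.sum_add_distrib]
          apply Finset.sum_congr rfl
          intro i _
          rw [List.map_cons, List.sum_cons]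
          have : s + x.1 + i * a = s + i * a + x.1 := by ring
          rw [this]
          ring
      rw [h2]
      apply Finset.sum_congr rfl
      intro i _
      rw [ih (j - i) (s + i * a)]
    rw [h1, ev_cons, Finset.sum_range_succ']
    simp only [Nat.choose_zero_right, pow_zero, mul_one, Nat.sub_zero, Nat.zero_mul, Nat.add_zero,
      one_mul]
    have h3 : ∑ i ∈ range (j + 1), (j + 1).choose (i + 1) * w ^ (i + 1) *
        ev φ (b :: L) (j + 1 - (i + 1)) (s + (i + 1) * a) =
        w * ev φ ((a, w) :: b :: L) j (s + a) +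
        ∑ i ∈ range (j + 1), j.choose (i + 1) * w ^ (i + 1) *
          ev φ (b :: L) (j - i) (s + (i + 1) * a) := by
      rw [ev_cons, Finset.mul_sum, ← Finset.sum_add_distrib]
      apply Finset.sum_congr rfl
      intro i _
      have e1 : j + 1 - (i + 1) = j - i := by omega
      have e2 : s + a + i * a = s + (i + 1) * a := by ring
      rw [e1, e2, Nat.choose_succ_succ]
      ring
    rw [h3, Finset.sum_range_succ]
    simp only [Nat.choose_succ_self, zero_mul, Nat.add_zero]
    have h4 : ∑ i ∈ range (j + 1), j.choose i * w ^ i * ev φ (b :: L) (j - i + 1) (s + i * a) =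
        ev φ (b :: L) (j + 1) s + ∑ i ∈ range j, j.choose (i + 1) * w ^ (i + 1) *
          ev φ (b :: L) (j - i) (s + (i + 1) * a) := by
      rw [Finset.sum_range_succ']
      simp only [Nat.choose_zero_right, pow_zero, mul_one, Nat.sub_zero, Nat.zero_mul, Nat.add_zero,
        one_mul]
      rw [Nat.add_comm]
      congr 1
      apply Finset.sum_congr rfl
      intro i hi
      have : j - (i + 1) + 1 = j - i := by
        have := Finset.mem_range.1 hi
        omega
      rw [this]
    rw [h4]
    ring

/-- all colour values, with multiplicity -/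
def cols (L : List (ℕ × ℕ)) : List ℕ := L.flatMap fun x => List.replicate x.2 x.1

theorem sum_cols (f : ℕ → ℕ) : ∀ L : List (ℕ × ℕ),
    ((cols L).map f).sum = (L.map fun x => x.2 * f x.1).sum
  | [] => rfl
  | x :: L => by
    unfold cols
    rw [List.flatMap_cons, List.map_append, List.sum_append, List.map_replicate, List.sum_replicate,
      List.map_cons, List.sum_cons, smul_eq_mul]
    congr 1
    exact sum_cols f L

/-- the total weight -/
def tw (L : List (ℕ × ℕ)) : ℕ := (L.map fun x => x.2).sum

theorem length_cols (L : List (ℕ × ℕ)) : (cols L).length = tw L := by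
  have h := sum_cols (fun _ => 1) L
  simp only [mul_one] at h
  rw [tw, ← h]
  simp

theorem sum_fin_cols (L : List (ℕ × ℕ)) (f : ℕ → ℕ) :
    ∑ x : Fin (cols L).length, f ((cols L).get x) = (L.map fun x => x.2 * f x.1).sum := by
  rw [← sum_cols f L]
  rw [← List.sum_ofFn]
  congr 1
  have : (List.ofFn fun i => f ((cols L).get i)) = (List.ofFn (cols L).get).map f := by
    rw [List.map_ofFn]
    rfl
  rw [this, List.ofFn_get]

section
variable {V : Type} [Fintype V] [DecidableEq V]

/-- exchanging the value at `v` -/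
theorem swap_sum {D : ℕ} (v : V) (F : (V → Fin D) → Fin D → ℕ) :
    ∑ g : V → Fin D, ∑ x : Fin D, F g x =
      ∑ g : V → Fin D, ∑ x : Fin D, F (Function.update g v x) (g v) := by
  rw [← Fintype.sum_prod_type', ← Fintype.sum_prod_type']
  symm
  refine Finset.sum_nbij' (fun p => (Function.update p.1 v p.2, p.1 v))
    (fun p => (Function.update p.1 v p.2, p.1 v)) ?_ ?_ ?_ ?_ ?_
  · simp
  · simp
  · rintro ⟨g, x⟩ _
    simp
  · rintro ⟨g, x⟩ _
    simp
  · rintro ⟨g, x⟩ _
    simp

theorem sum_count (L : List (ℕ × ℕ)) (φ : ℕ → ℕ) (Z : Finset V) : ∀ s : ℕ,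
    (cols L).length ^ Z.card * ∑ g : V → Fin (cols L).length,
        φ (s + ∑ v ∈ Z, (cols L).get (g v)) =
      (cols L).length ^ Fintype.card V * ev φ L Z.card s := by
  induction Z using Finset.induction_on with
  | empty =>
    intro s
    simp [ev_zero]
  | insert u Z hu ih =>
    intro s
    rw [Finset.card_insert_of_notMem hu, ev_succ, ← sum_fin_cols L (fun a => ev φ L Z.card (s + a))]
    have h0 : (cols L).length ^ Fintype.card V *
        ∑ x : Fin (cols L).length, ev φ L Z.card (s + (cols L).get x) =
        ∑ x : Fin (cols L).length,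
          (cols L).length ^ Fintype.card V * ev φ L Z.card (s + (cols L).get x) := Finset.mul_sum _ _ _
    rw [h0]
    have h1 : ∀ x : Fin (cols L).length,
        (cols L).length ^ Fintype.card V * ev φ L Z.card (s + (cols L).get x) =
        (cols L).length ^ Z.card * ∑ g : V → Fin (cols L).length,
          φ (s + (cols L).get x + ∑ v ∈ Z, (cols L).get (g v)) := fun x => (ih _).symm
    rw [Finset.sum_congr rfl fun x _ => h1 x, ← Finset.mul_sum, pow_succ, mul_assoc]
    congr 1
    rw [Finset.sum_comm, swap_sum u]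
    have h2 : ∀ g : V → Fin (cols L).length, ∀ x : Fin (cols L).length,
        φ (s + (cols L).get (g u) + ∑ v ∈ Z, (cols L).get (Function.update g u x v)) =
        φ (s + ∑ v ∈ insert u Z, (cols L).get (g v)) := by
      intro g x
      rw [Finset.sum_insert hu]
      congr 1
      rw [← Nat.add_assoc]
      congr 1
      apply Finset.sum_congr rfl
      intro v hv
      have : v ≠ u := fun h => hu (h ▸ hv)
      rw [Function.update_of_ne this]
    simp only [h2]
    rw [Finset.mul_sum]
    apply Finset.sum_congr rfl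
    intro g _
    simp

end

/-! ### coverage -/

/-- the inner loop of `chk` -/
def lpB (g : ℕ → ℕ → Bool) (a : ℕ) : ℕ → ℕ → Bool
  | 0, s => g 0 s
  | r + 1, s => g (r + 1) s && lpB g a r (s + a)

/-- every multiset of `j` colours of `L`, together with the used colours `supp` and the sum `s`,
has a colour whose removal leads to a chosen profile -/
def chk (P : ℕ → Bool) : List ℕ → ℕ → ℕ → List ℕ → Bool
  | [], j, s, supp => match j with
    | 0 => supp.any fun x => P (s - x)
    | _ + 1 => true
  | [a], j, s, supp => match j with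
    | 0 => supp.any fun x => P (s - x)
    | j' + 1 => (a :: supp).any fun x => P (s + (j' + 1) * a - x)
  | a :: b :: L, j, s, supp =>
    chk P (b :: L) j s supp && match j with
      | 0 => true
      | j' + 1 => lpB (fun r s' => chk P (b :: L) r s' (a :: supp)) a j' (s + a)

theorem chk_cons (P : ℕ → Bool) (a b : ℕ) (L : List ℕ) (j s : ℕ) (supp : List ℕ) :
    chk P (a :: b :: L) j s supp = (chk P (b :: L) j s supp && match j with
      | 0 => true
      | j' + 1 => lpB (fun r s' => chk P (b :: L) r s' (a :: supp)) a j' (s + a)) := by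
  cases j <;> rfl

theorem lpB_spec (g : ℕ → ℕ → Bool) (a : ℕ) : ∀ r s : ℕ, lpB g a r s = true →
    ∀ t ≤ r, g (r - t) (s + t * a) = true
  | 0, s, h, t, ht => by
    have : t = 0 := by omega
    subst this
    simpa [lpB] using h
  | r + 1, s, h, t, ht => by
    rw [lpB, Bool.and_eq_true] at h
    rcases Nat.eq_zero_or_pos t with rfl | ht0
    · simpa using h.1
    · have h1 := lpB_spec g a r (s + a) h.2 (t - 1) (by omega)
      have e1 : r - (t - 1) = r + 1 - t := by omega
      have e2 : s + a + (t - 1) * a = s + t * a := by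
        obtain ⟨t', rfl⟩ := Nat.exists_eq_add_of_le' ht0
        simp only [Nat.add_sub_cancel]
        ring
      rwa [e1, e2] at h1

theorem chk_spec (P : ℕ → Bool) : ∀ (L : List ℕ) (j s : ℕ) (supp : List ℕ),
    chk P L j s supp = true → ∀ m : Multiset ℕ, (∀ x ∈ m, x ∈ L) → Multiset.card m = j →
      ∃ x, (x ∈ supp ∨ x ∈ m) ∧ P (s + m.sum - x) = true
  | [], j, s, supp, h, m, hm, hc => by
    have hm0 : m = 0 := Multiset.eq_zero_of_forall_notMem fun x hx => by simpa using hm x hx
    subst hm0
    simp only [Multiset.card_zero] at hc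
    subst hc
    simp only [chk, List.any_eq_true] at h
    obtain ⟨x, hx, hP⟩ := h
    exact ⟨x, Or.inl hx, by simpa using hP⟩
  | [a], j, s, supp, h, m, hm, hc => by
    have hm0 : m = Multiset.replicate j a := by
      rw [Multiset.eq_replicate]
      exact ⟨hc, fun x hx => by simpa using hm x hx⟩
    subst hm0
    rcases j with _ | j
    · simp only [chk, List.any_eq_true] at h
      obtain ⟨x, hx, hP⟩ := h
      exact ⟨x, Or.inl hx, by simpa using hP⟩
    · simp only [chk, List.any_eq_true] at h
      obtain ⟨x, hx, hP⟩ := h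
      refine ⟨x, ?_, ?_⟩
      · rcases List.mem_cons.1 hx with rfl | hx
        · right
          simp
        · exact Or.inl hx
      · rw [Multiset.sum_replicate, smul_eq_mul]
        exact hP
  | a :: b :: L, j, s, supp, h, m, hm, hc => by
    rw [chk_cons, Bool.and_eq_true] at h
    obtain ⟨h1, h2⟩ := h
    set m' := m.filter (fun x => x ≠ a) with hm'
    have hsplit : Multiset.replicate (m.count a) a + m' = m := by
      have := Multiset.filter_add_not (fun x => x = a) m
      rw [Multiset.filter_eq'] at this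
      exact this
    have hm'L : ∀ x ∈ m', x ∈ b :: L := by
      intro x hx
      rw [hm', Multiset.mem_filter] at hx
      have := hm x hx.1
      rcases List.mem_cons.1 this with h3 | h3
      · exact absurd h3 hx.2
      · exact h3
    have hcard : m.count a + Multiset.card m' = j := by
      rw [← hc]
      conv_rhs => rw [← hsplit]
      simp
    have hsum : m.sum = m.count a * a + m'.sum := by
      conv_lhs => rw [← hsplit]
      simp
    rcases Nat.eq_zero_or_pos (m.count a) with h0 | h0
    · obtain ⟨x, hx, hP⟩ := chk_spec P (b :: L) j s supp h1 m' hm'L (by omega)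
      refine ⟨x, ?_, ?_⟩
      · rcases hx with hx | hx
        · exact Or.inl hx
        · exact Or.inr (Multiset.mem_of_mem_filter hx)
      · rw [hsum, h0, Nat.zero_mul, Nat.zero_add]
        exact hP
    · obtain ⟨j', rfl⟩ : ∃ j', j = j' + 1 := ⟨j - 1, by omega⟩
      have h3 := lpB_spec _ a j' (s + a) h2 (m.count a - 1) (by omega)
      obtain ⟨x, hx, hP⟩ := chk_spec P (b :: L) _ _ _ h3 m' hm'L (by omega)
      refine ⟨x, ?_, ?_⟩
      · rcases hx with hx | hx
        · rcases List.mem_cons.1 hx with rfl | hx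
          · exact Or.inr (Multiset.count_pos.1 h0)
          · exact Or.inl hx
        · exact Or.inr (Multiset.mem_of_mem_filter hx)
      · have e : s + m.sum - x = s + a + (m.count a - 1) * a + m'.sum - x := by
          rw [hsum]
          obtain ⟨t, ht⟩ : ∃ t, m.count a = t + 1 := ⟨m.count a - 1, by omega⟩
          rw [ht]
          simp only [Nat.add_sub_cancel]
          congr 1
          ring
        rw [e]
        exact hP

/-! ### the theorem -/

section
variable {V : Type} [Fintype V] [DecidableEq V]

/-- the family of a colouring -/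
def Fam (P : ℕ → Bool) (k : ℕ) (a : V → ℕ) : Finset (Finset V) :=
  (powersetCard k univ).filter fun Z => P (∑ v ∈ Z, a v) = true

theorem cov_Fam {P : ℕ → Bool} {k : ℕ} {L : List ℕ} (h : chk P L (k + 1) 0 [] = true) {a : V → ℕ}
    (ha : ∀ v, a v ∈ L) : Cov univ k (Fam P k a) := by
  refine ⟨?_, ?_⟩
  · intro Z hZ
    rw [Fam, mem_filter, mem_powersetCard] at hZ
    exact hZ.1
  · intro Y _ hY
    obtain ⟨x, hx, hP⟩ := chk_spec P L (k + 1) 0 [] h (Y.val.map a) (by
      intro x hx
      obtain ⟨v, _, rfl⟩ := Multiset.mem_map.1 hx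
      exact ha v) (by simpa using hY)
    rcases hx with hx | hx
    · simp at hx
    · obtain ⟨v, hv, rfl⟩ := Multiset.mem_map.1 hx
      refine ⟨Y.erase v, ?_, erase_subset _ _⟩
      rw [Fam, mem_filter, mem_powersetCard]
      refine ⟨⟨subset_univ _, ?_⟩, ?_⟩
      · rw [card_erase_of_mem hv, hY]
        rfl
      · have h1 : ∑ u ∈ Y.erase v, a u + a v = ∑ u ∈ Y, a u := Finset.sum_erase_add _ _ hv
        have h2 : (Y.val.map a).sum = ∑ u ∈ Y, a u := rfl
        rw [h2, ← h1, Nat.zero_add, Nat.add_sub_cancel] at hP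
        exact hP

end

/-- a covering family of profiles gives a Turán density bound -/
theorem good_plain {P : ℕ → Bool} {k : ℕ} (L : List (ℕ × ℕ))
    (hc : chk P (L.map Prod.fst) (k + 1) 0 [] = true) {N : ℕ}
    (hN : ev (fun s => if P s then 1 else 0) L k 0 ≤ N) (h0 : 0 < tw L) {t : ℝ}
    (ht : (N : ℝ) ≤ t * (tw L : ℝ) ^ k) : Good k (t * (k + 1)) := by
  intro n
  set D := (cols L).length with hD
  have hDt : D = tw L := length_cols L
  have hD0 : 0 < D := hDt ▸ h0
  have : Nonempty (Fin n → Fin D) := ⟨fun _ => ⟨0, hD0⟩⟩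
  set φ : ℕ → ℕ := fun s => if P s then 1 else 0 with hφ
  have hcard : ∀ g : Fin n → Fin D, (Fam P k (fun v => (cols L).get (g v))).card =
      ∑ Z ∈ powersetCard k (univ : Finset (Fin n)), φ (0 + ∑ v ∈ Z, (cols L).get (g v)) := by
    intro g
    rw [Fam, Finset.card_filter]
    simp only [hφ, Nat.zero_add]
  have hsum : ∑ g : Fin n → Fin D, D ^ k * (Fam P k (fun v => (cols L).get (g v))).card ≤
      ∑ _g : Fin n → Fin D, N * n.choose k := by
    rw [← Finset.mul_sum]
    simp_rw [hcard]
    rw [Finset.sum_comm, Finset.mul_sum]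
    have h1 : ∀ Z ∈ powersetCard k (univ : Finset (Fin n)),
        D ^ k * ∑ g : Fin n → Fin D, φ (0 + ∑ v ∈ Z, (cols L).get (g v)) = D ^ n * ev φ L k 0 := by
      intro Z hZ
      have h2 := sum_count (V := Fin n) L φ Z 0
      rw [(mem_powersetCard.1 hZ).2, Fintype.card_fin] at h2
      exact h2
    rw [Finset.sum_congr rfl h1, Finset.sum_const, card_powersetCard, Finset.card_univ,
      Finset.sum_const, Finset.card_univ, Fintype.card_fin, Fintype.card_fun, Fintype.card_fin,
      Fintype.card_fin, smul_eq_mul, smul_eq_mul]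
    calc n.choose k * (D ^ n * ev φ L k 0) ≤ n.choose k * (D ^ n * N) := by gcongr
      _ = _ := by ring
  obtain ⟨g, -, hg⟩ := Finset.exists_le_of_sum_le Finset.univ_nonempty hsum
  refine ⟨Fam P k (fun v => (cols L).get (g v)), cov_Fam hc ?_, ?_⟩
  · intro v
    have h2 : ∀ y ∈ cols L, y ∈ L.map Prod.fst := by
      intro y hy
      rw [cols, List.mem_flatMap] at hy
      obtain ⟨x, hx, hx2⟩ := hy
      rw [List.eq_of_mem_replicate hx2]
      exact List.mem_map_of_mem hx
    exact h2 _ (List.get_mem _ _)
  · have hDk : (0 : ℝ) < (D : ℝ) ^ k := by positivity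
    have h1 : ((D : ℝ) ^ k) * ((Fam P k (fun v => (cols L).get (g v))).card : ℝ) ≤
        (N : ℝ) * (n.choose k : ℝ) := by exact_mod_cast hg
    rw [← hDt] at ht
    have h2 : ((D : ℝ) ^ k) * ((Fam P k (fun v => (cols L).get (g v))).card : ℝ) ≤
        (D : ℝ) ^ k * (t * (n.choose k : ℝ)) := by
      calc _ ≤ (N : ℝ) * (n.choose k : ℝ) := h1
        _ ≤ t * (D : ℝ) ^ k * (n.choose k : ℝ) := by gcongr
        _ = _ := by ring
    have h3 := le_of_mul_le_mul_left h2 hDk
    calc ((Fam P k (fun v => (cols L).get (g v))).card : ℝ) * (k + 1) ≤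
        (t * (n.choose k : ℝ)) * (k + 1) := by gcongr
      _ = _ := by ring

end Pool.Agent.TH485.Tur
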